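import Pool.Agent.U98.PAL.Dfn

/-!
# Models of Peano arithmetic in the language of rings: the order
-/

set_option autoImplicit false

namespace Pool.Agent.U98.PAL

open FirstOrder FirstOrder.Language FirstOrder.Ring Set

universe w

section

variable {N : Type w} [CommSemiring N] [Neg N] [CompatibleRing N] {A : Set N}

theorem Tn.func2 {f g : (ℕ → N) → N} (F : Language.ring.Functions 2)
    (hf : Tn Language.ring A f) (hg : Tn Language.ring A g) :
    Tn Language.ring A fun v => Structure.funMap F ![f v, g v] := by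
  obtain ⟨s, hs⟩ := hf
  obtain ⟨t, ht⟩ := hg
  refine ⟨((Language.ring.lhomWithConstants A).onFunction F).apply₂ s t, fun v => ?_⟩
  rw [Term.realize_functions_apply₂, LHom.map_onFunction, hs, ht]

theorem Tn.add {f g : (ℕ → N) → N} (hf : Tn Language.ring A f) (hg : Tn Language.ring A g) :
    Tn Language.ring A fun v => f v + g v := by
  have h := Tn.func2 addFunc hf hg
  simpa using h

theorem Tn.mul {f g : (ℕ → N) → N} (hf : Tn Language.ring A f) (hg : Tn Language.ring A g) :
    Tn Language.ring A fun v => f v * g v := by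
  have h := Tn.func2 mulFunc hf hg
  simpa using h

theorem Tn.func0 (F : Language.ring.Functions 0) :
    Tn Language.ring A fun _ => Structure.funMap F ![] := by
  refine ⟨Constants.term ((Language.ring.lhomWithConstants A).onFunction F), fun v => ?_⟩
  rw [Term.realize_constants]
  show Structure.funMap _ _ = _
  rw [LHom.map_onFunction]
  exact congrArg _ (Subsingleton.elim _ _)

theorem Tn.zero : Tn Language.ring A fun _ => (0 : N) := by
  have h := Tn.func0 (A := A) zeroFunc
  simpa using h

theorem Tn.one : Tn Language.ring A fun _ => (1 : N) := by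
  have h := Tn.func0 (A := A) oneFunc
  simpa using h

end

/-- The axioms for the successor and the induction scheme. -/
structure PA (N : Type w) [CommSemiring N] [Neg N] [CompatibleRing N] : Prop where
  succ_ne : ∀ x : N, x + 1 ≠ 0
  succ_inj : ∀ x y : N, x + 1 = y + 1 → x = y
  ind : ∀ P : N → Prop, Dn Language.ring univ (fun v => P (v 0)) → P 0 →
    (∀ x, P x → P (x + 1)) → ∀ x, P x

namespace PA

variable {N : Type w} [CommSemiring N] [Neg N] [CompatibleRing N] (h : PA N)

include h

theorem zero_or (x : N) : x = 0 ∨ ∃ y, x = y + 1 := by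
  refine h.ind (fun x => x = 0 ∨ ∃ y, x = y + 1) ?_ (Or.inl rfl) ?_ x
  · exact (Dn.eq (Tn.var 0) Tn.zero).or (Dn.ex (R := fun y v => v 0 = y + 1)
      (Dn.eq (Tn.var 1) ((Tn.var 0).add Tn.one)))
  · intro x _
    exact Or.inr ⟨x, rfl⟩

theorem cancel {x y z : N} : x + z = y + z → x = y := by
  refine h.ind (fun z => x + z = y + z → x = y) ?_ ?_ ?_ z
  · exact (Dn.eq ((Tn.const (mem_univ x)).add (Tn.var 0))
      ((Tn.const (mem_univ y)).add (Tn.var 0))).imp
        (Dn.eq (Tn.const (mem_univ x)) (Tn.const (mem_univ y)))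
  · intro e
    simpa using e
  · intro z ih e
    exact ih (h.succ_inj _ _ (by rw [add_assoc, add_assoc]; exact e))

theorem eq_zero_of_add {x y : N} (e : x + y = 0) : y = 0 := by
  rcases h.zero_or y with e1 | ⟨w, rfl⟩
  · exact e1
  · exact absurd (by rw [add_assoc]; exact e) (h.succ_ne (x + w))

theorem total (x y : N) : (∃ z, x + z = y) ∨ ∃ z, y + z = x := by
  refine h.ind (fun x => (∃ z, x + z = y) ∨ ∃ z, y + z = x) ?_ ?_ ?_ x
  · exact (Dn.ex (R := fun z v => v 0 + z = y) (Dn.eq ((Tn.var 1).add (Tn.var 0))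
      (Tn.const (mem_univ y)))).or (Dn.ex (R := fun z v => y + z = v 0)
        (Dn.eq ((Tn.const (mem_univ y)).add (Tn.var 0)) (Tn.var 1)))
  · exact Or.inl ⟨y, zero_add y⟩
  · rintro x (⟨z, e⟩ | ⟨z, e⟩)
    · rcases h.zero_or z with rfl | ⟨w, rfl⟩
      · refine Or.inr ⟨1, ?_⟩
        rw [← e, add_zero]
      · refine Or.inl ⟨w, ?_⟩
        rw [← e]
        ring
    · refine Or.inr ⟨z + 1, ?_⟩
      rw [← e]
      ring

open Classical in
/-- The order of the model: `x ≤ y` iff `x + z = y` for some `z`. -/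
@[reducible] noncomputable def linearOrder : LinearOrder N where
  le x y := ∃ z, x + z = y
  le_refl x := ⟨0, add_zero x⟩
  le_trans := by
    rintro x y z ⟨a, rfl⟩ ⟨b, rfl⟩
    exact ⟨a + b, (add_assoc _ _ _).symm⟩
  le_antisymm := by
    rintro x y ⟨a, rfl⟩ ⟨b, e⟩
    have h1 : a + b = 0 := h.cancel (z := x) (by
      rw [zero_add]
      calc a + b + x = x + a + b := by ring
        _ = x := e)
    have h2 : b = 0 := h.eq_zero_of_add h1
    rw [h2, add_zero] at h1
    rw [h1, add_zero]
  le_total := h.total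
  toDecidableLE := Classical.decRel _

/-- The order is compatible with the operations. -/
theorem isStrictOrderedRing : @IsStrictOrderedRing N _ (h.linearOrder).toPartialOrder := by
  let _ := h.linearOrder
  have hle : ∀ {x y : N}, x ≤ y ↔ ∃ z, x + z = y := Iff.rfl
  have hlt : ∀ {x y : N}, x < y ↔ ∃ z, x + z + 1 = y := by
    intro x y
    rw [lt_iff_le_and_ne]
    constructor
    · rintro ⟨⟨z, rfl⟩, hne⟩
      rcases h.zero_or z with rfl | ⟨w, rfl⟩
      · exact absurd (add_zero x).symm hne
      · exact ⟨w, by ring⟩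
    · rintro ⟨z, rfl⟩
      refine ⟨⟨z + 1, by ring⟩, fun e => ?_⟩
      have h1 : z + 1 + x = 0 + x := by
        rw [zero_add]
        calc z + 1 + x = x + z + 1 := by ring
          _ = x := e.symm
      exact h.succ_ne z (h.cancel h1)
  have hmul : ∀ {a b c : N}, 0 < c → a < b → c * a < c * b := by
    intro a b c hc hab
    obtain ⟨c', e⟩ := hlt.1 hc
    obtain ⟨b', rfl⟩ := hlt.1 hab
    rw [zero_add] at e
    subst e
    exact hlt.2 ⟨(c' + 1) * b' + c', by ring⟩
  refine { add_le_add_left := ?_, le_of_add_le_add_left := ?_, zero_le_one := ⟨1, zero_add 1⟩,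
           exists_pair_ne := ⟨0, 1, fun e => h.succ_ne 0 (by rw [zero_add, ← e])⟩,
           mul_lt_mul_of_pos_left := ?_, mul_lt_mul_of_pos_right := ?_ }
  · rintro a b ⟨z, rfl⟩ c
    exact ⟨z, by ring⟩
  · rintro a b c ⟨z, e⟩
    refine ⟨z, h.cancel (z := a) ?_⟩
    calc b + z + a = a + b + z := by ring
      _ = a + c := e
      _ = c + a := add_comm _ _
  · intro a ha b c hbc
    exact hmul ha hbc
  · intro a ha b c hbc
    show b * a < c * a
    rw [mul_comm b, mul_comm c]
    exact hmul ha hbc

theorem canonicallyOrderedAdd : @CanonicallyOrderedAdd N _ (h.linearOrder).toLE := by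
  let _ := h.linearOrder
  exact { exists_add_of_le := fun ⟨c, hc⟩ => ⟨c, hc.symm⟩
          le_add_self := fun a b => ⟨b, add_comm _ _⟩
          le_self_add := fun a b => ⟨b, rfl⟩ }

end PA

end Pool.Agent.U98.PAL
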