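import Pool.Agent.U98.PAL.Arith

/-!
# Models of Peano arithmetic: bounded definable sets have bounded codes
-/

set_option autoImplicit false
set_option linter.unusedSectionVars false

namespace Pool.Agent.U98.PAL

open FirstOrder FirstOrder.Language FirstOrder.Ring Set

universe w

/-- Induction for the sets that are definable with parameters. -/
def Ind (N : Type w) [CommSemiring N] [Neg N] [CompatibleRing N] : Prop :=
  ∀ P : N → Prop, Dn Language.ring univ (fun v => P (v 0)) → P 0 →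
    (∀ x, P x → P (x + 1)) → ∀ x, P x

variable {N : Type w} [CommSemiring N] [LinearOrder N] [IsStrictOrderedRing N]
  [CanonicallyOrderedAdd N] [Neg N] [CompatibleRing N] {A : Set N}

theorem Dn.le {f g : (ℕ → N) → N} (hf : Tn Language.ring A f) (hg : Tn Language.ring A g) :
    Dn Language.ring A fun v => f v ≤ g v :=
  (Dn.ex (R := fun z v => g v = f v + z) (Dn.eq hg.tail (hf.tail.add (Tn.var 0)))).congr
    fun _ => le_iff_exists_add

theorem Dn.lt {f g : (ℕ → N) → N} (hf : Tn Language.ring A f) (hg : Tn Language.ring A g) :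
    Dn Language.ring A fun v => f v < g v :=
  (Dn.le hg hf).not.congr fun v => by simp

theorem Dn.dvd {f g : (ℕ → N) → N} (hf : Tn Language.ring A f) (hg : Tn Language.ring A g) :
    Dn Language.ring A fun v => f v ∣ g v :=
  Dn.ex (R := fun z v => g v = f v * z) (Dn.eq hg.tail (hf.tail.mul (Tn.var 0)))

variable (hi : Ind N)

include hi

theorem one_le_of_ne_zero {x : N} (hx : x ≠ 0) : 1 ≤ x := by
  have : ∀ x : N, x = 0 ∨ 1 ≤ x := by
    refine hi _ ?_ ?_ ?_
    · exact (Dn.eq (Tn.var 0) Tn.zero).or (Dn.le Tn.one (Tn.var 0))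
    · exact Or.inl rfl
    · intro x _; exact Or.inr le_add_self
  exact (this x).resolve_left hx

theorem lt_succ {x y : N} : x < y + 1 ↔ x ≤ y := by
  constructor
  · intro h
    by_contra hc
    push Not at hc
    obtain ⟨z, hz⟩ := exists_add_of_le hc.le
    have hz0 : z ≠ 0 := by rintro rfl; rw [hz] at hc; simp at hc
    have := one_le_of_ne_zero hi hz0
    rw [hz] at h
    exact absurd (add_le_add_right this y) (not_le.2 h)
  · intro h; exact lt_of_le_of_lt h (lt_add_one y)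

theorem succ_le {x y : N} : x + 1 ≤ y ↔ x < y := by
  rw [← not_lt, lt_succ hi, not_le]

/-- The least number principle. -/
theorem exists_min {P : N → Prop} (hP : Dn Language.ring univ fun v => P (v 0)) (hx : ∃ x, P x) :
    ∃ x, P x ∧ ∀ y, P y → x ≤ y := by
  by_contra hcon
  push Not at hcon
  have h1 : ∀ x : N, ∀ y, y ≤ x → ¬ P y := by
    refine hi _ ?_ ?_ ?_
    · exact Dn.all (R := fun y v => y ≤ v 0 → ¬ P y) ((Dn.le (Tn.var 0) (Tn.var 1)).imp hP.not)
    · intro y hy hPy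
      obtain ⟨z, hz, hz'⟩ := hcon y hPy
      exact absurd (lt_of_lt_of_le hz' hy) (not_lt.2 zero_le)
    · intro x ih y hy hPy
      obtain ⟨z, hz, hz'⟩ := hcon y hPy
      exact ih z ((lt_succ hi).1 (lt_of_lt_of_le hz' hy)) hz
  obtain ⟨x, hx⟩ := hx
  exact h1 x x le_rfl hx

omit hi in
theorem dvd_of_add_mul {a u v : N} (h : a ∣ u + a * v) : a ∣ u := by
  obtain ⟨w, hw⟩ := h
  rcases le_total v w with h1 | h1
  · obtain ⟨z, rfl⟩ := exists_add_of_le h1
    refine ⟨z, ?_⟩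
    have : a * v + u = a * v + a * z := by rw [add_comm (a * v) u, hw, mul_add]
    exact add_left_cancel this
  · have h2 : u + a * v ≤ a * v := by rw [hw]; exact mul_le_mul' le_rfl h1
    have h3 : u = 0 := by
      by_contra hu
      have : a * v < u + a * v := lt_add_of_pos_left _ (pos_iff_ne_zero.2 hu)
      exact absurd h2 (not_le.2 this)
    rw [h3]; exact dvd_zero a

/-- The modulus. -/
def md (d x : N) : N := 1 + (x + 1) * d

omit hi in
theorem Tn.md {f g : (ℕ → N) → N} (hf : Tn Language.ring A f) (hg : Tn Language.ring A g) :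
    Tn Language.ring A fun v => md (f v) (g v) :=
  Tn.one.add ((hg.add Tn.one).mul hf)

omit hi in
theorem md_coprime {b d x y c : N} (hd : ∀ z, z ≤ b → 0 < z → z ∣ d) (hx : x < b) (hy : y < b)
    (hxy : x ≠ y) (h : md d x ∣ c * md d y) : md d x ∣ c := by
  unfold md at *
  rcases lt_or_gt_of_ne hxy with hlt | hlt
  · obtain ⟨z, rfl⟩ := exists_add_of_le hlt.le
    have hz : 0 < z := by
      rw [pos_iff_ne_zero]; rintro rfl; exact hxy (add_zero x).symm
    obtain ⟨e, rfl⟩ := hd z (le_add_self.trans hy.le) hz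
    obtain ⟨w, hw⟩ := h
    have key : c + (1 + (x + 1) * (z * e)) * (((x + 1) * (x + z + 1) * e) * c) =
        (1 + (x + 1) * (z * e)) * c +
          ((x + 1) * (x + 1) * e) * (c * (1 + (x + z + 1) * (z * e))) := by ring
    rw [hw] at key
    refine dvd_of_add_mul (v := ((x + 1) * (x + z + 1) * e) * c) ?_
    rw [key]
    refine ⟨c + (x + 1) * (x + 1) * e * w, ?_⟩
    ring
  · obtain ⟨z, rfl⟩ := exists_add_of_le hlt.le
    have hz : 0 < z := by
      rw [pos_iff_ne_zero]; rintro rfl; exact hxy (add_zero y)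
    obtain ⟨e, rfl⟩ := hd z (le_add_self.trans hx.le) hz
    obtain ⟨w, hw⟩ := h
    have key : c + ((y + z + 1) * (y + z + 1) * e) * (c * (1 + (y + 1) * (z * e))) =
        (1 + (y + z + 1) * (z * e)) * ((1 + (y + z + 1) * (y + 1) * e) * c) := by ring
    rw [hw] at key
    refine dvd_of_add_mul (v := ((y + z + 1) * (y + z + 1) * e) * w) ?_
    refine ⟨(1 + (y + z + 1) * (y + 1) * e) * c, ?_⟩
    rw [← key]
    ring

/-- `d` is a nonzero common multiple of `1, ..., b`. -/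
def Mlt (b d : N) : Prop := d ≠ 0 ∧ ∀ z, z ≤ b → 0 < z → z ∣ d

omit hi in
theorem dn_mlt {f g : (ℕ → N) → N} (hf : Tn Language.ring A f) (hg : Tn Language.ring A g) :
    Dn Language.ring A fun v => Mlt (f v) (g v) :=
  (Dn.eq hg Tn.zero).not.and (Dn.all (R := fun z v => z ≤ f v → 0 < z → z ∣ g v)
    ((Dn.le (Tn.var 0) hf.tail).imp ((Dn.lt Tn.zero (Tn.var 0)).imp
      (Dn.dvd (Tn.var 0) hg.tail))))

theorem exists_mlt (b : N) : ∃ d : N, Mlt b d := by
  revert b
  refine hi _ ?_ ?_ ?_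
  · exact Dn.ex (R := fun d v => Mlt (v 0) d) (dn_mlt (Tn.var 1) (Tn.var 0))
  · exact ⟨1, one_ne_zero, fun z hz hz0 => absurd hz0 (not_lt.2 hz)⟩
  · rintro b ⟨d, hd0, hd⟩
    refine ⟨d * (b + 1), mul_ne_zero hd0 (by
      have : (0 : N) < b + 1 := lt_of_le_of_lt zero_le (lt_add_one _)
      exact this.ne'), fun z hz hz0 => ?_⟩
    rcases lt_or_ge z (b + 1) with h | h
    · exact (hd z ((lt_succ hi).1 h) hz0).mul_right _
    · rw [le_antisymm hz h]; exact dvd_mul_left _ _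

theorem code_zero {b d : N} (hd : Mlt b d) (P : N → Prop) :
    ∀ x, x < b → (md d x ∣ 1 ↔ P x ∧ x < 0) := by
  intro x _
  constructor
  · rintro ⟨w, hw⟩
    exfalso
    have hx : 1 < md d x := by
      unfold md
      refine lt_add_of_pos_right _ ?_
      refine pos_iff_ne_zero.2 (mul_ne_zero ?_ hd.1)
      exact (lt_of_le_of_lt zero_le (lt_add_one x) : (0 : N) < x + 1).ne'
    have hw0 : w ≠ 0 := by rintro rfl; simp at hw
    have : md d x * 1 ≤ md d x * w := mul_le_mul' le_rfl (one_le_of_ne_zero hi hw0)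
    rw [← hw, mul_one] at this
    exact absurd this (not_le.2 hx)
  · rintro ⟨_, h⟩; exact absurd h (not_lt.2 zero_le)

theorem code_succ {b d n c : N} (hd : Mlt b d) {P : N → Prop} (hn : n < b)
    (hc : ∀ x, x < b → (md d x ∣ c ↔ P x ∧ x < n)) :
    ∃ c', c' ≤ c * md d n ∧ ∀ x, x < b → (md d x ∣ c' ↔ P x ∧ x < n + 1) := by
  by_cases hPn : P n
  · refine ⟨c * md d n, le_rfl, fun x hx => ?_⟩
    rcases eq_or_ne x n with rfl | hxn
    · exact ⟨fun _ => ⟨hPn, lt_add_one x⟩, fun _ => dvd_mul_left _ _⟩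
    · constructor
      · intro h
        obtain ⟨h1, h2⟩ := (hc x hx).1 (md_coprime hd.2 hx hn hxn h)
        exact ⟨h1, h2.trans (lt_add_one n)⟩
      · rintro ⟨h1, h2⟩
        exact ((hc x hx).2 ⟨h1, lt_of_le_of_ne ((lt_succ hi).1 h2) hxn⟩).mul_right _
  · refine ⟨c, ?_, fun x hx => ?_⟩
    · have h1 : 1 ≤ md d n := by
        unfold md
        exact le_self_add
      calc c = c * 1 := (mul_one c).symm
        _ ≤ c * md d n := mul_le_mul' le_rfl h1
    · rw [hc x hx]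
      constructor
      · rintro ⟨h1, h2⟩; exact ⟨h1, h2.trans (lt_add_one n)⟩
      · rintro ⟨h1, h2⟩
        refine ⟨h1, lt_of_le_of_ne ((lt_succ hi).1 h2) ?_⟩
        rintro rfl; exact hPn h1

/-- Bounded comprehension. -/
theorem exists_code {b d : N} (hd : Mlt b d) {P : N → Prop}
    (hP : Dn Language.ring univ fun v => P (v 0)) : ∃ c, ∀ x, x < b → (md d x ∣ c ↔ P x) := by
  have main : ∀ n : N, n ≤ b → ∃ c : N, ∀ x, x < b → (md d x ∣ c ↔ P x ∧ x < n) := by
    refine hi _ ?_ ?_ ?_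
    · refine (Dn.le (Tn.var 0) (Tn.const (mem_univ b))).imp
        (Dn.ex (R := fun c v => ∀ x, x < b → (Pool.Agent.U98.PAL.md d x ∣ c ↔ P x ∧ x < v 0))
          (Dn.all (R := fun x v => x < b → (Pool.Agent.U98.PAL.md d x ∣ v 0 ↔ P x ∧ x < v 1))
            ((Dn.lt (Tn.var 0) (Tn.const (mem_univ b))).imp (Dn.iff ?_ (hP.and ?_)))))
      · exact Dn.dvd (Tn.md (Tn.const (mem_univ d)) (Tn.var 0)) (Tn.var 1)
      · exact Dn.lt (Tn.var 0) (Tn.var 2)
    · intro _
      exact ⟨1, code_zero hi hd P⟩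
    · intro n ih hn
      have hnb : n < b := (succ_le hi).1 hn
      obtain ⟨c, hc⟩ := ih hnb.le
      obtain ⟨c', -, hc'⟩ := code_succ hi hd hnb hc
      exact ⟨c', hc'⟩
  obtain ⟨c, hc⟩ := main b le_rfl
  exact ⟨c, fun x hx => by rw [hc x hx, and_iff_left hx]⟩

/-- `B` is a bound for the codes of the subsets of `{x | x < b}` with the multiple `d`. -/
def Bd (b d B : N) : Prop := ∀ t, ∃ c, c ≤ B ∧ ∀ x, x < b → (md d x ∣ c ↔ md d x ∣ t)

omit hi in
theorem dn_bd {f g k : (ℕ → N) → N} (hf : Tn Language.ring A f) (hg : Tn Language.ring A g)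
    (hk : Tn Language.ring A k) : Dn Language.ring A fun v => Bd (f v) (g v) (k v) :=
  Dn.all (R := fun t v => ∃ c, c ≤ k v ∧ ∀ x, x < f v → (Pool.Agent.U98.PAL.md (g v) x ∣ c ↔
      Pool.Agent.U98.PAL.md (g v) x ∣ t))
    (Dn.ex (R := fun c v => c ≤ k (fun i => v (i + 1)) ∧ ∀ x, x < f (fun i => v (i + 1)) →
      (Pool.Agent.U98.PAL.md (g (fun i => v (i + 1))) x ∣ c ↔
        Pool.Agent.U98.PAL.md (g (fun i => v (i + 1))) x ∣ v 0))
      ((Dn.le (Tn.var 0) hk.tail.tail).and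
        (Dn.all (R := fun x v => x < f (fun i => v (i + 2)) →
          (Pool.Agent.U98.PAL.md (g (fun i => v (i + 2))) x ∣ v 0 ↔
            Pool.Agent.U98.PAL.md (g (fun i => v (i + 2))) x ∣ v 1))
          ((Dn.lt (Tn.var 0) hf.tail.tail.tail).imp
            ((Dn.dvd (Tn.md hg.tail.tail.tail (Tn.var 0)) (Tn.var 1)).iff
              (Dn.dvd (Tn.md hg.tail.tail.tail (Tn.var 0)) (Tn.var 2)))))))

theorem exists_bd {b d : N} (hd : Mlt b d) : ∃ B, Bd b d B := by
  have main : ∀ n : N, n ≤ b → ∃ B : N, ∀ t, ∃ c, c ≤ B ∧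
      ∀ x, x < b → (md d x ∣ c ↔ md d x ∣ t ∧ x < n) := by
    refine hi _ ?_ ?_ ?_
    · refine (Dn.le (Tn.var 0) (Tn.const (mem_univ b))).imp
        (Dn.ex (R := fun B v => ∀ t, ∃ c, c ≤ B ∧
            ∀ x, x < b → (Pool.Agent.U98.PAL.md d x ∣ c ↔ Pool.Agent.U98.PAL.md d x ∣ t ∧ x < v 0))
          (Dn.all (R := fun t v => ∃ c, c ≤ v 0 ∧ ∀ x, x < b →
              (Pool.Agent.U98.PAL.md d x ∣ c ↔ Pool.Agent.U98.PAL.md d x ∣ t ∧ x < v 1))
            (Dn.ex (R := fun c v => c ≤ v 1 ∧ ∀ x, x < b →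
              (Pool.Agent.U98.PAL.md d x ∣ c ↔ Pool.Agent.U98.PAL.md d x ∣ v 0 ∧ x < v 2))
              ((Dn.le (Tn.var 0) (Tn.var 2)).and
                (Dn.all (R := fun x v => x < b →
                  (Pool.Agent.U98.PAL.md d x ∣ v 0 ↔ Pool.Agent.U98.PAL.md d x ∣ v 1 ∧ x < v 3))
                  ((Dn.lt (Tn.var 0) (Tn.const (mem_univ b))).imp (Dn.iff ?_ (Dn.and ?_ ?_))))))))
      · exact Dn.dvd (Tn.md (Tn.const (mem_univ d)) (Tn.var 0)) (Tn.var 1)
      · exact Dn.dvd (Tn.md (Tn.const (mem_univ d)) (Tn.var 0)) (Tn.var 2)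
      · exact Dn.lt (Tn.var 0) (Tn.var 4)
    · intro _
      exact ⟨1, fun t => ⟨1, le_rfl, code_zero hi hd _⟩⟩
    · intro n ih hn
      have hnb : n < b := (succ_le hi).1 hn
      obtain ⟨B, hB⟩ := ih hnb.le
      refine ⟨B * md d n, fun t => ?_⟩
      obtain ⟨c, hcB, hc⟩ := hB t
      obtain ⟨c', hc1, hc2⟩ := code_succ hi hd (P := fun x => md d x ∣ t) hnb hc
      exact ⟨c', hc1.trans (mul_le_mul' hcB le_rfl), hc2⟩
  obtain ⟨B, hB⟩ := main b le_rfl
  refine ⟨B, fun t => ?_⟩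
  obtain ⟨c, hcB, hc⟩ := hB t
  exact ⟨c, hcB, fun x hx => by rw [hc x hx, and_iff_left hx]⟩

/-- A definable set below `b` has a code below the bound `B`. -/
theorem exists_code_le {b d B : N} (hd : Mlt b d) (hB : Bd b d B) {P : N → Prop}
    (hP : Dn Language.ring univ fun v => P (v 0)) :
    ∃ c, c ≤ B ∧ ∀ x, x < b → (md d x ∣ c ↔ P x) := by
  obtain ⟨t, ht⟩ := exists_code hi hd hP
  obtain ⟨c, hc, hc'⟩ := hB t
  exact ⟨c, hc, fun x hx => by rw [hc' x hx, ht x hx]⟩

end Pool.Agent.U98.PAL
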