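import Mathlib

/-!
# Relations that are definable with parameters from a set

Relations are viewed as properties of assignments `v : ℕ → N`.
-/

set_option autoImplicit false

namespace Pool.Agent.U98.PAL

open FirstOrder FirstOrder.Language Set

universe u w

/-- `cons x v` is the assignment `x, v 0, v 1, ...`. -/
def cons {N : Type w} (x : N) (v : ℕ → N) : ℕ → N
  | 0 => x
  | i + 1 => v i

@[simp] theorem cons_zero {N : Type w} (x : N) (v : ℕ → N) : cons x v 0 = x := rfl
@[simp] theorem cons_one {N : Type w} (x : N) (v : ℕ → N) : cons x v 1 = v 0 := rfl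
@[simp] theorem cons_two {N : Type w} (x : N) (v : ℕ → N) : cons x v 2 = v 1 := rfl
@[simp] theorem cons_three {N : Type w} (x : N) (v : ℕ → N) : cons x v 3 = v 2 := rfl
@[simp] theorem cons_four {N : Type w} (x : N) (v : ℕ → N) : cons x v 4 = v 3 := rfl
@[simp] theorem cons_five {N : Type w} (x : N) (v : ℕ → N) : cons x v 5 = v 4 := rfl
@[simp] theorem cons_succ {N : Type w} (x : N) (v : ℕ → N) (i : ℕ) : cons x v (i + 1) = v i := rfl

theorem cons_eta {N : Type w} (v : ℕ → N) : cons (v 0) (fun i => v (i + 1)) = v := by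
  funext i
  cases i <;> rfl

variable {L : FirstOrder.Language.{0, 0}} {N : Type w} [L.Structure N]

variable (L) in
/-- The relation is definable with parameters from `A`. -/
def Dn (A : Set N) (R : (ℕ → N) → Prop) : Prop := A.Definable L {v : ℕ → N | R v}

variable (L) in
/-- The function of the assignment is the value of a term with parameters from `A`. -/
def Tn (A : Set N) (f : (ℕ → N) → N) : Prop := ∃ t : L[[A]].Term ℕ, ∀ v, t.realize v = f v

variable {A B : Set N} {R S : (ℕ → N) → Prop}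

theorem Dn.mono (h : Dn L A R) (hAB : A ⊆ B) : Dn L B R := Definable.mono h hAB

theorem Dn.congr (h : Dn L A R) (e : ∀ v, S v ↔ R v) : Dn L A S := by
  have : S = R := funext fun v => propext (e v)
  rw [this]
  exact h

theorem Dn.not (h : Dn L A R) : Dn L A fun v => ¬ R v := Definable.compl h

theorem Dn.and (h : Dn L A R) (h' : Dn L A S) : Dn L A fun v => R v ∧ S v := Definable.inter h h'

theorem Dn.or (h : Dn L A R) (h' : Dn L A S) : Dn L A fun v => R v ∨ S v := Definable.union h h'

theorem Dn.imp (h : Dn L A R) (h' : Dn L A S) : Dn L A fun v => R v → S v :=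
  (h.not.or h').congr fun v => by tauto

theorem Dn.iff (h : Dn L A R) (h' : Dn L A S) : Dn L A fun v => (R v ↔ S v) :=
  ((h.imp h').and (h'.imp h)).congr fun v => by tauto

theorem Dn.subst (h : Dn L A R) {σ : ℕ → (ℕ → N) → N} (hσ : ∀ i, Tn L A (σ i)) :
    Dn L A fun v => R fun i => σ i v := by
  obtain ⟨φ, hφ⟩ := h
  choose t ht using hσ
  refine ⟨BoundedFormula.subst φ t, ?_⟩
  ext v
  have h1 : ∀ w, R w ↔ φ.Realize w := fun w => by
    have := congrArg (w ∈ ·) hφ
    exact iff_of_eq this
  show R (fun i => σ i v) ↔ (BoundedFormula.subst φ t).Realize v default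
  rw [h1, BoundedFormula.realize_subst]
  simp only [ht]
  rfl

theorem Tn.var (i : ℕ) : Tn L A fun v => v i := ⟨Term.var i, fun _ => rfl⟩

theorem Tn.const {a : N} (ha : a ∈ A) : Tn L A fun _ => a :=
  ⟨(L.con (⟨a, ha⟩ : A)).term, fun v => by simp⟩

theorem Tn.subst {f : (ℕ → N) → N} (h : Tn L A f) {σ : ℕ → (ℕ → N) → N}
    (hσ : ∀ i, Tn L A (σ i)) : Tn L A fun v => f fun i => σ i v := by
  obtain ⟨t, ht⟩ := h
  choose s hs using hσ
  refine ⟨t.subst s, fun v => ?_⟩
  rw [Term.realize_subst, ht]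
  simp only [hs]

theorem Tn.tail {f : (ℕ → N) → N} (h : Tn L A f) : Tn L A fun v => f fun i => v (i + 1) :=
  h.subst (σ := fun i v => v (i + 1)) fun i => Tn.var (i + 1)

theorem Dn.eq {f g : (ℕ → N) → N} (hf : Tn L A f) (hg : Tn L A g) : Dn L A fun v => f v = g v := by
  obtain ⟨s, hs⟩ := hf
  obtain ⟨t, ht⟩ := hg
  refine ⟨s.equal t, ?_⟩
  ext v
  show f v = g v ↔ (s.equal t).Realize v
  rw [Formula.realize_equal, hs, ht]

theorem Dn.rename (h : Dn L A R) (g : ℕ → ℕ) : Dn L A fun v => R fun i => v (g i) :=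
  h.subst (σ := fun i v => v (g i)) fun i => Tn.var (g i)

theorem Dn.tail (h : Dn L A R) : Dn L A fun v => R fun i => v (i + 1) :=
  h.rename (· + 1)

theorem Dn.all' (h : Dn L A R) : Dn L A fun v => ∀ x, R (cons x v) := by
  have h1 := Definable.preimage_comp (fun i : ℕ => match i with
    | 0 => (Sum.inr 0 : ℕ ⊕ Fin 1)
    | i + 1 => Sum.inl i) h
  have h2 := Definable.forall_of_finite (β := Fin 1) h1
  refine Dn.congr (R := fun v => ∀ u : Fin 1 → N, Sum.elim v u ∈ _) h2 fun v => ?_
  constructor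
  · intro H u
    have h3 := H (u 0)
    show R _
    convert h3 using 1
    funext i
    cases i <;> rfl
  · intro H x
    have h3 : R _ := H fun _ => x
    convert h3 using 1
    funext i
    cases i <;> rfl

theorem Dn.all {R : N → (ℕ → N) → Prop} (h : Dn L A fun v => R (v 0) fun i => v (i + 1)) :
    Dn L A fun v => ∀ x, R x v := Dn.all' h

theorem Dn.ex {R : N → (ℕ → N) → Prop} (h : Dn L A fun v => R (v 0) fun i => v (i + 1)) :
    Dn L A fun v => ∃ x, R x v :=
  (Dn.all (R := fun x v => ¬ R x v) h.not).not.congr fun v => by push Not; rfl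

theorem Dn.iff_definable₁ {P : N → Prop} :
    Dn L A (fun v => P (v 0)) ↔ A.Definable₁ L {x | P x} := by
  constructor
  · intro h
    exact Definable.preimage_comp (fun _ : ℕ => (0 : Fin 1)) h
  · intro h
    exact Definable.preimage_comp (fun _ : Fin 1 => (0 : ℕ)) h

theorem Dn.finite (h : Dn L A R) : ∃ A0 : Finset N, (A0 : Set N) ⊆ A ∧ Dn L (A0 : Set N) R :=
  definable_iff_finitely_definable.1 h

/-- Extraction of a parameter. -/
theorem Dn.extract {c : N} (h : Dn L (insert c A) R) :
    ∃ R' : (ℕ → N) → Prop, Dn L A R' ∧ ∀ v, R v ↔ R' (cons c v) := by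
  classical
  obtain ⟨φ, hφ⟩ := definable_iff_exists_formula_sum.1 h
  have h1 : ∀ w, R w ↔ φ.Realize (Sum.elim (↑) w) := fun w => iff_of_eq (congrArg (w ∈ ·) hφ)
  let g : (insert c A : Set N) ⊕ ℕ → A ⊕ ℕ
    | Sum.inl a => if ha : (a : N) ∈ A then Sum.inl ⟨a, ha⟩ else Sum.inr 0
    | Sum.inr i => Sum.inr (i + 1)
  refine ⟨fun v => (φ.relabel g).Realize (Sum.elim (↑) v),
    definable_iff_exists_formula_sum.2 ⟨_, rfl⟩, fun v => ?_⟩
  rw [h1]
  show _ ↔ (φ.relabel g).Realize _
  rw [Formula.realize_relabel]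
  refine iff_of_eq (congrArg _ ?_)
  funext z
  rcases z with a | i
  · by_cases ha : (a : N) ∈ A
    · simp [g, ha]
    · have h2 : (a : N) = c := (Set.mem_insert_iff.1 a.2).resolve_right ha
      have h3 : g (Sum.inl a) = Sum.inr 0 := dif_neg ha
      show (a : N) = Sum.elim (↑) (cons c v) (g (Sum.inl a))
      rw [h3, h2]
      rfl
  · simp [g]

/-- Elimination of a definable parameter. -/
theorem Dn.elim {c : N} (h : Dn L (insert c A) R) (hc : Dn L A fun v => v 0 = c) : Dn L A R := by
  obtain ⟨R', h1, h2⟩ := h.extract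
  refine (Dn.all (R := fun x v => x = c → R' (cons x v)) (hc.imp ?_)).congr fun v => ?_
  · exact h1.congr fun v => by rw [cons_eta]
  · rw [h2]
    exact ⟨fun h x hx => hx ▸ h, fun h => h c rfl⟩

/-- A set that meets all the definable sets. -/
theorem meets_iff {K : Set N} : L.MeetsDefinable K ↔
    ∀ P : N → Prop, Dn L K (fun v => P (v 0)) → (∃ x, P x) → ∃ x ∈ K, P x := by
  constructor
  · intro h P hP hx
    obtain ⟨x, hx1, hx2⟩ := h {x | P x} hx (Dn.iff_definable₁.1 hP)
    exact ⟨x, hx2, hx1⟩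
  · intro h D hD hD'
    obtain ⟨x, hx1, hx2⟩ := h (fun x => x ∈ D) (Dn.iff_definable₁.2 hD') hD
    exact ⟨x, hx2, hx1⟩

/-- The elementary substructure on a set that meets the definable sets. -/
def sub {K : Set N} (h : L.MeetsDefinable K) : L.ElementarySubstructure N :=
  h.toElementarySubstructure

@[simp] theorem coe_sub {K : Set N} (h : L.MeetsDefinable K) : (sub h : Set N) = K :=
  h.closure_eq_self

/-- An element that is definable from `K` is in `K`. -/
theorem mem_of_unique {K : Set N} (h : L.MeetsDefinable K) {P : N → Prop}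
    (hP : Dn L K fun v => P (v 0)) {b : N} (hb : P b) (hu : ∀ x, P x → x = b) : b ∈ K := by
  obtain ⟨x, hx, hx'⟩ := meets_iff.1 h P hP ⟨b, hb⟩
  rw [← hu x hx']
  exact hx

end Pool.Agent.U98.PAL
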