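import Pool.Agent.U98.PAL.Transfer

/-!
# A countable nonstandard model of Peano arithmetic in the language of rings
-/

set_option autoImplicit false
set_option linter.style.haveILetI false

namespace Pool.Agent.U98.PAL

open FirstOrder FirstOrder.Language FirstOrder.Ring Set Cardinal

universe w

/-- The unused operation on the natural numbers. -/
@[reducible] def negNat : Neg ℕ := ⟨fun x => x⟩

/-- The natural numbers as a structure in the language of rings. -/
@[reducible] def natRing : @CompatibleRing ℕ _ _ negNat _ _ :=
  let _ := negNat
  compatibleRingOfRing ℕ

theorem pa_nat : @PA ℕ _ negNat natRing := by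
  let _ := negNat
  let _ := natRing
  refine ⟨fun x => Nat.succ_ne_zero x, fun x y h => Nat.succ_injective h, fun P _ h0 hs x => ?_⟩
  induction x with
  | zero => exact h0
  | succ n ih => exact hs n ih

section

variable (K : Type w) [Language.ring.Structure K]

/-- The operations of a structure. -/
@[reducible] def addK : Add K := ⟨fun x y => Structure.funMap addFunc ![x, y]⟩
@[reducible] def mulK : Mul K := ⟨fun x y => Structure.funMap mulFunc ![x, y]⟩
@[reducible] def negK : Neg K := ⟨fun x => Structure.funMap negFunc ![x]⟩
@[reducible] def zeroK : Zero K := ⟨Structure.funMap zeroFunc ![]⟩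
@[reducible] def oneK : One K := ⟨Structure.funMap oneFunc ![]⟩

/-- The structure is compatible with the operations. -/
@[reducible] def compK : @CompatibleRing K (addK K) (mulK K) (negK K) (oneK K) (zeroK K) :=
  letI := addK K
  letI := mulK K
  letI := negK K
  letI := zeroK K
  letI := oneK K
  { funMap_add := fun x => by
      show _ = Structure.funMap addFunc ![x 0, x 1]
      congr 1
      funext i
      fin_cases i <;> rfl
    funMap_mul := fun x => by
      show _ = Structure.funMap mulFunc ![x 0, x 1]
      congr 1
      funext i
      fin_cases i <;> rfl
    funMap_neg := fun x => by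
      show _ = Structure.funMap negFunc ![x 0]
      congr 1
      funext i
      fin_cases i
      rfl
    funMap_zero := fun x => by
      show _ = Structure.funMap zeroFunc ![]
      exact congrArg _ (Subsingleton.elim _ _)
    funMap_one := fun x => by
      show _ = Structure.funMap oneFunc ![]
      exact congrArg _ (Subsingleton.elim _ _) }

variable {K}

theorem eq_of_nat (h : letI := negNat; letI := natRing;
      ∀ σ : Language.ring.Sentence, σ.Realize ℕ ↔ σ.Realize K)
    {n : ℕ} (s t : Language.ring.Term (Fin n))
    (hst : letI := negNat; letI := natRing; ∀ v : Fin n → ℕ, s.realize v = t.realize v)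
    (v : Fin n → K) : s.realize v = t.realize v := by
  letI := negNat
  letI := natRing
  have h1 := realize_of_equiv h (s.equal t) (fun v => by
    rw [Formula.realize_equal]
    exact hst v) v
  rwa [Formula.realize_equal] at h1

/-- The semiring. -/
@[reducible] def semiringK (h : letI := negNat; letI := natRing;
    ∀ σ : Language.ring.Sentence, σ.Realize ℕ ↔ σ.Realize K) : CommSemiring K :=
  letI := addK K
  letI := mulK K
  letI := negK K
  letI := zeroK K
  letI := oneK K
  letI := compK K
  { add_assoc := fun x y z => by
      have h1 := eq_of_nat h (Term.var (0 : Fin 3) + Term.var 1 + Term.var 2)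
        (Term.var 0 + (Term.var 1 + Term.var 2)) (fun v => by
          letI := negNat
          letI := natRing
          simp only [realize_add, Term.realize_var]
          ring) ![x, y, z]
      simp only [realize_add, Term.realize_var] at h1
      exact h1
    zero_add := fun x => by
      have h1 := eq_of_nat h (0 + Term.var (0 : Fin 1)) (Term.var 0) (fun v => by
          letI := negNat
          letI := natRing
          simp only [realize_add, realize_zero, Term.realize_var]
          ring) ![x]
      simp only [realize_add, realize_zero, Term.realize_var] at h1
      exact h1
    add_zero := fun x => by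
      have h1 := eq_of_nat h (Term.var (0 : Fin 1) + 0) (Term.var 0) (fun v => by
          letI := negNat
          letI := natRing
          simp only [realize_add, realize_zero, Term.realize_var]
          ring) ![x]
      simp only [realize_add, realize_zero, Term.realize_var] at h1
      exact h1
    add_comm := fun x y => by
      have h1 := eq_of_nat h (Term.var (0 : Fin 2) + Term.var 1) (Term.var 1 + Term.var 0)
        (fun v => by
          letI := negNat
          letI := natRing
          simp only [realize_add, Term.realize_var]
          ring) ![x, y]
      simp only [realize_add, Term.realize_var] at h1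
      exact h1
    left_distrib := fun x y z => by
      have h1 := eq_of_nat h (Term.var (0 : Fin 3) * (Term.var 1 + Term.var 2))
        (Term.var 0 * Term.var 1 + Term.var 0 * Term.var 2) (fun v => by
          letI := negNat
          letI := natRing
          simp only [realize_add, realize_mul, Term.realize_var]
          ring) ![x, y, z]
      simp only [realize_add, realize_mul, Term.realize_var] at h1
      exact h1
    right_distrib := fun x y z => by
      have h1 := eq_of_nat h ((Term.var (0 : Fin 3) + Term.var 1) * Term.var 2)
        (Term.var 0 * Term.var 2 + Term.var 1 * Term.var 2) (fun v => by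
          letI := negNat
          letI := natRing
          simp only [realize_add, realize_mul, Term.realize_var]
          ring) ![x, y, z]
      simp only [realize_add, realize_mul, Term.realize_var] at h1
      exact h1
    zero_mul := fun x => by
      have h1 := eq_of_nat h (0 * Term.var (0 : Fin 1)) 0 (fun v => by
          letI := negNat
          letI := natRing
          simp only [realize_mul, realize_zero, Term.realize_var]
          ring) ![x]
      simp only [realize_mul, realize_zero, Term.realize_var] at h1
      exact h1
    mul_zero := fun x => by
      have h1 := eq_of_nat h (Term.var (0 : Fin 1) * 0) 0 (fun v => by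
          letI := negNat
          letI := natRing
          simp only [realize_mul, realize_zero, Term.realize_var]
          ring) ![x]
      simp only [realize_mul, realize_zero, Term.realize_var] at h1
      exact h1
    mul_assoc := fun x y z => by
      have h1 := eq_of_nat h (Term.var (0 : Fin 3) * Term.var 1 * Term.var 2)
        (Term.var 0 * (Term.var 1 * Term.var 2)) (fun v => by
          letI := negNat
          letI := natRing
          simp only [realize_mul, Term.realize_var]
          ring) ![x, y, z]
      simp only [realize_mul, Term.realize_var] at h1
      exact h1
    one_mul := fun x => by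
      have h1 := eq_of_nat h (1 * Term.var (0 : Fin 1)) (Term.var 0) (fun v => by
          letI := negNat
          letI := natRing
          simp only [realize_mul, realize_one, Term.realize_var]
          ring) ![x]
      simp only [realize_mul, realize_one, Term.realize_var] at h1
      exact h1
    mul_one := fun x => by
      have h1 := eq_of_nat h (Term.var (0 : Fin 1) * 1) (Term.var 0) (fun v => by
          letI := negNat
          letI := natRing
          simp only [realize_mul, realize_one, Term.realize_var]
          ring) ![x]
      simp only [realize_mul, realize_one, Term.realize_var] at h1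
      exact h1
    mul_comm := fun x y => by
      have h1 := eq_of_nat h (Term.var (0 : Fin 2) * Term.var 1) (Term.var 1 * Term.var 0)
        (fun v => by
          letI := negNat
          letI := natRing
          simp only [realize_mul, Term.realize_var]
          ring) ![x, y]
      simp only [realize_mul, Term.realize_var] at h1
      exact h1
    nsmul := nsmulRec
    npow := npowRec }

theorem neg_K (h : letI := negNat; letI := natRing;
    ∀ σ : Language.ring.Sentence, σ.Realize ℕ ↔ σ.Realize K) (x : K) :
    (negK K).neg x = x := by
  letI := addK K
  letI := mulK K
  letI := negK K
  letI := zeroK K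
  letI := oneK K
  letI := compK K
  have h1 := eq_of_nat h (-Term.var (0 : Fin 1)) (Term.var 0) (fun v => by
    letI := negNat
    letI := natRing
    simp only [realize_neg, Term.realize_var]
    rfl) ![x]
  simp only [realize_neg, Term.realize_var] at h1
  exact h1

end

/-- There is a countable nonstandard model of Peano arithmetic. -/
theorem exists_model : ∃ (M : Type) (_ : CommSemiring M) (_ : Neg M) (_ : CompatibleRing M),
    Countable M ∧ (∀ x : M, -x = x) ∧ PA M ∧ ∃ a : M, ∀ n : ℕ, (n : M) ≠ a := by
  letI := negNat
  letI := natRing
  have hcard : Language.ring.card ≤ ℵ₀ := by
    rw [card_ring]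
    exact_mod_cast (natCast_lt_aleph0 (n := 5)).le
  obtain ⟨N0, ⟨f⟩, hN0⟩ := Language.exists_elementaryEmbedding_card_eq_of_ge Language.ring ℕ
    (aleph 1 : Cardinal.{0}) (by
      simp only [Cardinal.lift_id]
      exact hcard.trans (aleph0_le_aleph 1)) (by
      simp only [Cardinal.lift_id, mk_nat]
      exact aleph0_le_aleph 1)
  have h1 : ∃ a : N0, a ∉ Set.range f := by
    by_contra hcon
    push Not at hcon
    have h2 : #N0 ≤ #ℕ := mk_le_of_surjective (f := f) fun a => hcon a
    rw [hN0, mk_nat] at h2
    exact absurd h2 (not_le.2 (by simp))
  obtain ⟨a, ha⟩ := h1
  obtain ⟨S, hS1, hS2⟩ := Language.exists_elementarySubstructure_card_eq Language.ring {a}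
    (ℵ₀ : Cardinal.{0}) le_rfl (by simp) (by simp) (by
      rw [hN0]
      simp)
  have hcount : Countable S := by
    rw [← mk_le_aleph0_iff]
    simp only [Cardinal.lift_id] at hS2
    exact hS2.le
  have heq : ∀ σ : Language.ring.Sentence, σ.Realize ℕ ↔ σ.Realize S := fun σ =>
    (f.map_sentence σ).trans (S.subtype.map_sentence σ).symm
  refine ⟨S, semiringK heq, negK S, compK S, hcount, neg_K heq,
    @PA.transfer ℕ _ negNat natRing S (semiringK heq) (negK S) (compK S) heq pa_nat,
    ⟨a, hS1 rfl⟩, fun n hn => ha ⟨n, ?_⟩⟩
  letI := semiringK heq
  have h2 : ∀ n : ℕ, f n = S.subtype (n : S) := by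
    intro n
    induction n with
    | zero =>
      rw [Nat.cast_zero]
      have e1 := f.map_fun (zeroFunc) ![]
      have e2 := S.subtype.map_fun (zeroFunc) ![]
      have e3 : f (Structure.funMap (zeroFunc : Language.ring.Functions 0) ![]) =
          S.subtype (Structure.funMap (zeroFunc : Language.ring.Functions 0) ![]) := by
        rw [e1, e2]
        congr 1
        exact Subsingleton.elim _ _
      exact e3
    | succ n ih =>
      rw [Nat.cast_succ]
      have e1 := f.map_fun (oneFunc) ![]
      have e2 := S.subtype.map_fun (oneFunc) ![]
      have e3 : f (Structure.funMap (oneFunc : Language.ring.Functions 0) ![]) =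
          S.subtype (Structure.funMap (oneFunc : Language.ring.Functions 0) ![]) := by
        rw [e1, e2]
        congr 1
        exact Subsingleton.elim _ _
      have e4 : f 1 = S.subtype (1 : S) := e3
      have e5 := f.map_fun (addFunc) ![n, 1]
      have e6 := S.subtype.map_fun (addFunc) ![(n : S), 1]
      have e7 : f (Structure.funMap (addFunc : Language.ring.Functions 2) ![n, 1]) =
          S.subtype (Structure.funMap (addFunc : Language.ring.Functions 2) ![(n : S), 1]) := by
        rw [e5, e6]
        congr 1
        funext i
        fin_cases i
        · exact ih
        · exact e4
      exact e7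
  rw [h2 n, hn]
  rfl

end Pool.Agent.U98.PAL
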