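import Pool.Agent.U98.PAL.Code

/-!
# Models of Peano arithmetic: definable closure and convex closure of elementary submodels
-/

set_option autoImplicit false
set_option linter.unusedSectionVars false

namespace Pool.Agent.U98.PAL

open FirstOrder FirstOrder.Language FirstOrder.Ring Set

universe w

variable {N : Type w} [CommSemiring N] [LinearOrder N] [IsStrictOrderedRing N]
  [CanonicallyOrderedAdd N] [Neg N] [CompatibleRing N] {A B K : Set N} {R : (ℕ → N) → Prop}

/-- The definable closure. -/
def hull (A : Set N) : Set N := {b | Dn Language.ring A fun v => v 0 = b}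

theorem subset_hull : A ⊆ hull A := fun _ ha => Dn.eq (Tn.var 0) (Tn.const ha)

theorem hull_mono (h : A ⊆ B) : hull A ⊆ hull B := fun _ hb => Dn.mono hb h

theorem hull_subset (hK : Language.ring.MeetsDefinable K) (h : A ⊆ K) : hull A ⊆ K := fun b hb =>
  mem_of_unique hK (P := fun x => x = b) (Dn.mono hb h) rfl fun _ h => h

theorem dn_of_finset (A0 : Finset N) (h0 : (A0 : Set N) ⊆ hull A)
    (h : Dn Language.ring ((A0 : Set N) ∪ A) R) : Dn Language.ring A R := by
  classical
  induction A0 using Finset.induction_on with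
  | empty => simpa using h
  | insert a s _ ih =>
    rw [Finset.coe_insert, Set.insert_union] at h
    rw [Finset.coe_insert, Set.insert_subset_iff] at h0
    exact ih h0.2 (h.elim (Dn.mono h0.1 Set.subset_union_right))

theorem dn_of_hull (h : Dn Language.ring (hull A) R) : Dn Language.ring A R := by
  obtain ⟨A0, h0, h1⟩ := h.finite
  exact dn_of_finset A0 h0 (h1.mono Set.subset_union_left)

/-- The definable closure is an elementary submodel. -/
theorem meets_hull (hi : Ind N) : Language.ring.MeetsDefinable (hull A) := by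
  refine meets_iff.2 fun P hP hx => ?_
  have hP' : Dn Language.ring A fun v => P (v 0) := dn_of_hull hP
  obtain ⟨x, h1, h2⟩ := exists_min hi (hP'.mono (Set.subset_univ _)) hx
  refine ⟨x, ?_, h1⟩
  refine (hP'.and (Dn.all (R := fun y v => P y → v 0 ≤ y)
    (Dn.imp ?_ (Dn.le (Tn.var 1) (Tn.var 0))))).congr fun v => ?_
  · exact hP'
  · constructor
    · rintro e
      rw [e]
      exact ⟨h1, h2⟩
    · rintro ⟨h3, h4⟩
      exact le_antisymm (h4 x h1) (h2 _ h3)

/-- The elements of the definable closure of `insert a K` as values of a partial function. -/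
theorem exists_graph {a b : N} (hb : b ∈ hull (insert a K)) :
    ∃ G : N → N → Prop, Dn Language.ring K (fun v => G (v 0) (v 1)) ∧ G a b ∧
      ∀ u x y, G u x → G u y → x = y := by
  obtain ⟨R', h1, h2⟩ := Dn.extract hb
  refine ⟨fun u x => R' (cons u fun _ => x) ∧ ∀ y, R' (cons u fun _ => y) → y = x, ?_, ?_, ?_⟩
  · refine Dn.and ?_ (Dn.all (R := fun y v => R' (cons (v 0) fun _ => y) → y = v 1)
      (Dn.imp ?_ (Dn.eq (Tn.var 0) (Tn.var 2))))
    · refine (h1.rename fun i => if i = 0 then 0 else 1).congr fun v => iff_of_eq ?_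
      congr 1
      funext i
      cases i <;> simp
    · refine (h1.rename fun i => if i = 0 then 1 else 0).congr fun v => iff_of_eq ?_
      congr 1
      funext i
      cases i <;> simp
  · exact ⟨(h2 _).1 rfl, fun y hy => (h2 (fun _ => y)).2 hy⟩
  · rintro u x y ⟨-, h3⟩ ⟨h4, -⟩
    exact (h3 y h4).symm

/-- The convex closure. -/
def conv (K : Set N) : Set N := {x | ∃ m ∈ K, x ≤ m}

theorem subset_conv : K ⊆ conv K := fun x hx => ⟨x, hx, le_rfl⟩

theorem hull_insert_subset_conv (hi : Ind N) (hK : Language.ring.MeetsDefinable K) {a : N}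
    (ha : a ∈ conv K) : hull (insert a K) ⊆ conv K := by
  intro b hb
  obtain ⟨G, hG, hab, hu⟩ := exists_graph hb
  obtain ⟨m, hm, ham⟩ := ha
  have hG' : ∀ {A : Set N} {f g : (ℕ → N) → N}, K ⊆ A → Tn Language.ring A f →
      Tn Language.ring A g → Dn Language.ring A fun v => G (f v) (g v) := by
    intro A f g hA hf hg
    refine (Dn.subst (hG.mono hA) (σ := fun i v => if i = 0 then f v else g v) fun i => ?_).congr
      fun v => by simp
    by_cases h : i = 0
    · simp only [h, if_true]
      exact hf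
    · simp only [h, if_false]
      exact hg
  have h1 : ∀ n : N, ∃ B, ∀ u, u ≤ n → ∀ x, G u x → x ≤ B := by
    refine hi _ ?_ ?_ ?_
    · refine Dn.ex (R := fun B v => ∀ u, u ≤ v 0 → ∀ x, G u x → x ≤ B)
        (Dn.all (R := fun u v => u ≤ v 1 → ∀ x, G u x → x ≤ v 0)
          ((Dn.le (Tn.var 0) (Tn.var 2)).imp
            (Dn.all (R := fun x v => G (v 0) x → x ≤ v 1)
              (Dn.imp ?_ (Dn.le (Tn.var 0) (Tn.var 2))))))
      exact hG' (Set.subset_univ _) (Tn.var 1) (Tn.var 0)
    · by_cases h : ∃ x, G 0 x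
      · obtain ⟨x, hx⟩ := h
        refine ⟨x, fun u hu' y hy => ?_⟩
        have : u = 0 := le_antisymm hu' zero_le
        subst this
        exact (hu _ _ _ hy hx).le
      · refine ⟨0, fun u hu' y hy => ?_⟩
        have : u = 0 := le_antisymm hu' zero_le
        subst this
        exact absurd ⟨y, hy⟩ h
    · rintro n ⟨B, hB⟩
      by_cases h : ∃ x, G (n + 1) x
      · obtain ⟨x, hx⟩ := h
        refine ⟨B + x, fun u hu' y hy => ?_⟩
        rcases hu'.lt_or_eq with h2 | rfl
        · exact (hB u ((lt_succ hi).1 h2) y hy).trans le_self_add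
        · exact (hu _ _ _ hy hx).le.trans le_add_self
      · refine ⟨B, fun u hu' y hy => ?_⟩
        rcases hu'.lt_or_eq with h2 | rfl
        · exact hB u ((lt_succ hi).1 h2) y hy
        · exact absurd ⟨y, hy⟩ h
  obtain ⟨B, hB, hB'⟩ := meets_iff.1 hK (fun B => ∀ u, u ≤ m → ∀ x, G u x → x ≤ B)
    (Dn.all (R := fun u v => u ≤ m → ∀ x, G u x → x ≤ v 0)
      ((Dn.le (Tn.var 0) (Tn.const hm)).imp (Dn.all (R := fun x v => G (v 0) x → x ≤ v 1)
        (Dn.imp (hG' subset_rfl (Tn.var 1) (Tn.var 0)) (Dn.le (Tn.var 0) (Tn.var 2)))))) (h1 m)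
  exact ⟨B, hB, hB' a ham b hab⟩

theorem conv_conv : conv (conv K) ⊆ conv K := by
  rintro x ⟨y, ⟨z, hz, hyz⟩, hxy⟩
  exact ⟨z, hz, hxy.trans hyz⟩

theorem conv_mono (h : A ⊆ B) : conv A ⊆ conv B := fun _ ⟨m, hm, hx⟩ => ⟨m, h hm, hx⟩

/-- The convex closure of an elementary submodel is an elementary submodel. -/
theorem meets_conv (hi : Ind N) (hK : Language.ring.MeetsDefinable K) :
    Language.ring.MeetsDefinable (conv K) := by
  classical
  have key : ∀ A0 : Finset N, (A0 : Set N) ⊆ conv K → ∃ K' : Set N,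
      Language.ring.MeetsDefinable K' ∧ K ⊆ K' ∧ (A0 : Set N) ⊆ K' ∧ K' ⊆ conv K := by
    intro A0
    induction A0 using Finset.induction_on with
    | empty => exact fun _ => ⟨K, hK, subset_rfl, by simp, subset_conv⟩
    | insert a s _ ih =>
      intro h0
      rw [Finset.coe_insert, Set.insert_subset_iff] at h0
      obtain ⟨K', h1, h2, h3, h4⟩ := ih h0.2
      have h5 : a ∈ conv K' := conv_mono h2 h0.1
      refine ⟨hull (insert a K'), meets_hull hi, ?_, ?_, ?_⟩
      · exact h2.trans ((Set.subset_insert _ _).trans subset_hull)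
      · rw [Finset.coe_insert, Set.insert_subset_iff]
        exact ⟨subset_hull (Set.mem_insert _ _),
          h3.trans ((Set.subset_insert _ _).trans subset_hull)⟩
      · exact (hull_insert_subset_conv hi h1 h5).trans ((conv_mono h4).trans conv_conv)
  refine meets_iff.2 fun P hP hx => ?_
  obtain ⟨A0, h0, h1⟩ := hP.finite
  obtain ⟨K', h2, -, h3, h4⟩ := key A0 h0
  obtain ⟨x, hx1, hx2⟩ := meets_iff.1 h2 P (h1.mono h3) hx
  exact ⟨x, h4 hx1, hx2⟩

end Pool.Agent.U98.PAL
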