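import Pool.Agent.U98.PAL.Pent

/-!
# A ranked pentagon is not an interval of a lattice of elementary submodels
-/

set_option autoImplicit false

namespace Pool.Agent.U98.PAL

open FirstOrder FirstOrder.Language FirstOrder.Ring Set

universe w x

variable {N : Type w} [CommSemiring N] [Neg N] [CompatibleRing N]

theorem no_iso (hN : PA N) {base : Set N} {P : Type x} [PartialOrder P] {C : Set P}
    (e : P ≃o {K : Language.ring.ElementarySubstructure N // base ⊆ (K : Set N)})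
    (hC : ∀ l : P, l ∈ C ↔ ∀ x ∈ (e l).1, ∀ y : N, y ∉ (e l).1 → ∃ z : N, x + z + 1 = y)
    {o a b c : P} (hoa : o < a) (hab : a < b) (hoc : o < c)
    (ha : ∀ x, o ≤ x → x ≤ a → x = o ∨ x = a) (hc : ∀ x, o ≤ x → x ≤ c → x = o ∨ x = c)
    (hbc : ∀ x, x ≤ b → x ≤ c → x ≤ o) (hac : ∀ x, a ≤ x → c ≤ x → ∀ y, y ≤ x)
    (hb : b ∈ C) (hr : ∀ x ∈ C, o ≤ x → b ≤ x) : False := by
  let _ := hN.linearOrder
  have _ := hN.isStrictOrderedRing
  have _ := hN.canonicallyOrderedAdd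
  have hi : Ind N := hN.ind
  let s : P → Set N := fun l => ((e l).1 : Set N)
  have hle : ∀ {l l' : P}, l ≤ l' ↔ s l ⊆ s l' := fun {l l'} => (e.le_iff_le (x := l) (y := l')).symm
  have hm : ∀ l, Language.ring.MeetsDefinable (s l) := fun l => (e l).1.meetsDefinable
  have hbase : ∀ l, base ⊆ s l := fun l => (e l).2
  have hsurj : ∀ S : Set N, Language.ring.MeetsDefinable S → base ⊆ S → ∃ l, s l = S := by
    intro S hS h
    refine ⟨e.symm ⟨sub hS, by rw [coe_sub]; exact h⟩, ?_⟩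
    show ((e (e.symm _)).1 : Set N) = S
    rw [OrderIso.apply_symm_apply]
    exact coe_sub hS
  have hlt : ∀ {l l' : P}, l < l' → ∃ x ∈ s l', x ∉ s l := by
    intro l l' h
    by_contra hcon
    push Not at hcon
    exact absurd (hle.2 hcon) (not_le_of_gt h)
  have hlt' : ∀ {x y : N}, (∃ z, x + z + 1 = y) → x < y := by
    rintro x y ⟨z, rfl⟩
    exact lt_of_le_of_lt le_self_add (lt_add_one _)
  refine not_pentagon hi (K0 := s o) (Ka := s a) (Kb := s b) (Kc := s c) (hm o) (hm a) (hm c)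
    (hle.1 hoa.le) (hle.1 hab.le) (hle.1 hoc.le) ?_ ?_ (hlt hoa) (hlt hoc) (hlt hab) ?_ ?_ ?_ ?_
  · intro S hS h1 h2
    obtain ⟨l, rfl⟩ := hsurj S hS ((hbase o).trans h1)
    rcases ha l (hle.2 h1) (hle.2 h2) with rfl | rfl
    · exact Or.inl rfl
    · exact Or.inr rfl
  · intro S hS h1 h2
    obtain ⟨l, rfl⟩ := hsurj S hS ((hbase o).trans h1)
    rcases hc l (hle.2 h1) (hle.2 h2) with rfl | rfl
    · exact Or.inl rfl
    · exact Or.inr rfl
  · intro x hx y hyx
    by_contra hy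
    exact absurd (hlt' ((hC b).1 hb x hx y hy)) (not_lt.2 hyx)
  · have h1 : Language.ring.MeetsDefinable (s b ∩ s c) := by
      refine meets_iff.2 fun P hP hx => ?_
      obtain ⟨x, h1, h2⟩ := exists_min hi (hP.mono (Set.subset_univ _)) hx
      have h3 : ∀ K : Set N, Language.ring.MeetsDefinable K → s b ∩ s c ⊆ K → x ∈ K := by
        intro K hK hsub
        refine mem_of_unique hK (P := fun x => P x ∧ ∀ y, P y → x ≤ y)
          ((hP.mono hsub).and (Dn.all (R := fun y v => P y → v 0 ≤ y)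
            (Dn.imp (hP.mono hsub) (Dn.le (Tn.var 1) (Tn.var 0))))) ⟨h1, h2⟩ ?_
        rintro x' ⟨h3, h4⟩
        exact le_antisymm (h4 x h1) (h2 x' h3)
      exact ⟨x, ⟨h3 _ (hm b) Set.inter_subset_left, h3 _ (hm c) Set.inter_subset_right⟩, h1⟩
    obtain ⟨l, hl⟩ := hsurj _ h1 (Set.subset_inter (hbase b) (hbase c))
    rw [← hl]
    exact hle.1 (hbc l (hle.2 (hl ▸ Set.inter_subset_left)) (hle.2 (hl ▸ Set.inter_subset_right)))
  · intro S hS h1 h2 x
    obtain ⟨l, rfl⟩ := hsurj S hS ((hbase a).trans h1)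
    have h3 : Language.ring.MeetsDefinable (Set.univ : Set N) :=
      meets_iff.2 fun P _ ⟨x, hx⟩ => ⟨x, trivial, hx⟩
    obtain ⟨t, ht⟩ := hsurj _ h3 (Set.subset_univ _)
    have h4 := hle.1 (hac l (hle.2 h1) (hle.2 h2) t)
    rw [ht] at h4
    exact h4 trivial
  · intro S hS h1 h2
    obtain ⟨l, rfl⟩ := hsurj S hS ((hbase o).trans h1)
    refine hle.1 (hr l ((hC l).2 fun x hx y hy => ?_) (hle.2 h1))
    have h3 : x < y := by
      by_contra h
      exact hy (h2 x hx y (not_lt.1 h))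
    obtain ⟨z, hz⟩ := exists_add_of_le ((succ_le hi).2 h3)
    refine ⟨z, ?_⟩
    rw [hz]
    ring

end Pool.Agent.U98.PAL
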