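import Mathlib

/-!
# The pentagon
-/

set_option autoImplicit false

namespace Pool.Agent.U98.PAL

/-- The elements of the pentagon: `o < a < b < i` and `o < c < i`. -/
inductive P5 : Type
  | o | a | b | c | i
  deriving DecidableEq

namespace P5

instance : Fintype P5 := ⟨{o, a, b, c, i}, fun x => by cases x <;> simp⟩

/-- The order as a Boolean function. -/
def leb : P5 → P5 → Bool
  | o, _ => true
  | _, i => true
  | a, a => true
  | a, b => true
  | b, b => true
  | c, c => true
  | _, _ => false

/-- The join. -/
def sup' : P5 → P5 → P5
  | o, y => y
  | x, o => x
  | i, _ => i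
  | _, i => i
  | c, c => c
  | c, _ => i
  | _, c => i
  | a, y => y
  | b, _ => b

/-- The meet. -/
def inf' : P5 → P5 → P5
  | i, y => y
  | x, i => x
  | o, _ => o
  | _, o => o
  | c, c => c
  | c, _ => o
  | _, c => o
  | a, _ => a
  | b, y => y

instance : LE P5 := ⟨fun x y => leb x y = true⟩

instance : DecidableRel (α := P5) (· ≤ ·) := fun x y => inferInstanceAs (Decidable (leb x y = true))

instance : Lattice P5 where
  le_refl := by decide
  le_trans := by decide
  le_antisymm := by decide
  sup := sup'
  inf := inf'
  le_sup_left := by decide
  le_sup_right := by decide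
  sup_le := by decide
  inf_le_left := by decide
  inf_le_right := by decide
  le_inf := by decide

instance : BoundedOrder P5 where
  top := i
  bot := o
  le_top := by decide
  bot_le := by decide

instance : Finite P5 := Finite.of_fintype _

end P5

end Pool.Agent.U98.PAL
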