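import Mathlib

/-!
# The pentagon with a new least element
-/

set_option autoImplicit false

namespace Pool.Agent.U98.PAL

/-- The elements of the lattice: `z < o < a < b < i` and `o < c < i`. -/
inductive P6 : Type
  | z | o | a | b | c | i
  deriving DecidableEq

namespace P6

instance : Fintype P6 := ⟨{z, o, a, b, c, i}, fun x => by cases x <;> simp⟩

/-- The order as a Boolean function. -/
def leb : P6 → P6 → Bool
  | z, _ => true
  | _, i => true
  | o, z => false
  | o, _ => true
  | a, a => true
  | a, b => true
  | b, b => true
  | c, c => true
  | _, _ => false

/-- The join. -/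
def sup' : P6 → P6 → P6
  | z, y => y
  | x, z => x
  | o, y => y
  | x, o => x
  | i, _ => i
  | _, i => i
  | c, c => c
  | c, _ => i
  | _, c => i
  | a, y => y
  | b, _ => b

/-- The meet. -/
def inf' : P6 → P6 → P6
  | i, y => y
  | x, i => x
  | z, _ => z
  | _, z => z
  | o, _ => o
  | _, o => o
  | c, c => c
  | c, _ => o
  | _, c => o
  | a, _ => a
  | b, y => y

instance : LE P6 := ⟨fun x y => leb x y = true⟩

instance : DecidableRel (α := P6) (· ≤ ·) := fun x y => inferInstanceAs (Decidable (leb x y = true))

instance : Lattice P6 where
  le_refl := by decide
  le_trans := by decide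
  le_antisymm := by decide
  sup := sup'
  inf := inf'
  le_sup_left := by decide
  le_sup_right := by decide
  sup_le := by decide
  inf_le_left := by decide
  inf_le_right := by decide
  le_inf := by decide

instance : BoundedOrder P6 where
  top := i
  bot := z
  le_top := by decide
  bot_le := by decide

end P6

end Pool.Agent.U98.PAL
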