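import Pool.Agent.U98.PAL.Hull

/-!
# A pentagon that is not realized

Let `K0 ≤ Ka < Kb ≤ N` and `Kc` be elementary submodels such that `N` is an end extension of `Kb`,
`Kb` is a cofinal extension of `K0`, `Kb ∩ Kc = K0` and `N` is generated by `a ∈ Ka`, `c ∈ Kc` over
`K0`. An element `k` of `Kb` is a value `F c a` of a function that is definable over `K0`. The
restriction of `F c` to a bounded set is coded in `Kc`, and the code is bounded by an element of
`K0`, so it is in `Kb ∩ Kc = K0`. Hence `k` is definable from `a` over `K0`.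
-/

set_option autoImplicit false
set_option linter.unusedSectionVars false

namespace Pool.Agent.U98.PAL

open FirstOrder FirstOrder.Language FirstOrder.Ring Set

universe w

variable {N : Type w} [CommSemiring N] [LinearOrder N] [IsStrictOrderedRing N]
  [CanonicallyOrderedAdd N] [Neg N] [CompatibleRing N] {A B K : Set N} {R : (ℕ → N) → Prop}

/-- The pair. -/
def pr (x y : N) : N := (x + y) * (x + y) + x

theorem Tn.pr {f g : (ℕ → N) → N} (hf : Tn Language.ring A f) (hg : Tn Language.ring A g) :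
    Tn Language.ring A fun v => pr (f v) (g v) :=
  ((hf.add hg).mul (hf.add hg)).add hf

theorem pr_mono {x y x' y' : N} (hx : x ≤ x') (hy : y ≤ y') : pr x y ≤ pr x' y' :=
  add_le_add (mul_le_mul' (add_le_add hx hy) (add_le_add hx hy)) hx

theorem pr_inj (hi : Ind N) {x y x' y' : N} (h : pr x y = pr x' y') : x = x' ∧ y = y' := by
  unfold pr at h
  have key : ∀ {x y x' y' : N}, (x + y) * (x + y) + x = (x' + y') * (x' + y') + x' →
      ¬ (x + y < x' + y') := by
    intro x y x' y' h hlt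
    have h1 : x + y + 1 ≤ x' + y' := (succ_le hi).2 hlt
    have h2 : (x + y + 1) * (x + y + 1) ≤ (x' + y') * (x' + y') := mul_le_mul' h1 h1
    have h3 : (x + y + 1) * (x + y + 1) = (x + y) * (x + y) + x + (x + y + y + 1) := by ring
    have h4 : (x + y) * (x + y) + x + (x + y + y + 1) ≤ (x + y) * (x + y) + x := by
      rw [← h3, h]
      exact h2.trans le_self_add
    have h5 : (x + y) * (x + y) + x < (x + y) * (x + y) + x + (x + y + y + 1) := by
      have : (0 : N) < x + y + y + 1 := lt_of_le_of_lt zero_le (lt_add_one _)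
      exact lt_add_of_pos_right _ this
    exact absurd h4 (not_le.2 h5)
  have hs : x + y = x' + y' := le_antisymm (not_lt.1 (key h.symm)) (not_lt.1 (key h))
  rw [hs] at h
  have hx : x = x' := add_left_cancel h
  subst hx
  exact ⟨rfl, add_left_cancel hs⟩

theorem not_pentagon (hi : Ind N) {K0 Ka Kb Kc : Set N}
    (m0 : Language.ring.MeetsDefinable K0) (ma : Language.ring.MeetsDefinable Ka)
    (mc : Language.ring.MeetsDefinable Kc)
    (h0a : K0 ⊆ Ka) (hab : Ka ⊆ Kb) (h0c : K0 ⊆ Kc)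
    (hA : ∀ S : Set N, Language.ring.MeetsDefinable S → K0 ⊆ S → S ⊆ Ka → S = K0 ∨ S = Ka)
    (hC : ∀ S : Set N, Language.ring.MeetsDefinable S → K0 ⊆ S → S ⊆ Kc → S = K0 ∨ S = Kc)
    (ha : ∃ a ∈ Ka, a ∉ K0) (hc : ∃ c ∈ Kc, c ∉ K0) (hk : ∃ k ∈ Kb, k ∉ Ka)
    (hinit : ∀ x ∈ Kb, ∀ y, y ≤ x → y ∈ Kb) (hmeet : Kb ∩ Kc ⊆ K0)
    (hjoin : ∀ S : Set N, Language.ring.MeetsDefinable S → Ka ⊆ S → Kc ⊆ S → ∀ x, x ∈ S)
    (hrank : ∀ S : Set N, Language.ring.MeetsDefinable S → K0 ⊆ S →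
      (∀ x ∈ S, ∀ y, y ≤ x → y ∈ S) → Kb ⊆ S) : False := by
  have hcof : Kb ⊆ conv K0 := hrank _ (meets_conv hi m0) subset_conv
    fun x ⟨m, hm, hx⟩ y hy => ⟨m, hm, hy.trans hx⟩
  obtain ⟨a, haA, ha0⟩ := ha
  obtain ⟨c, hcC, hc0⟩ := hc
  obtain ⟨k, hkB, hkA⟩ := hk
  have hullA : hull (insert a K0) = Ka := by
    refine (hA _ (meets_hull hi) ((Set.subset_insert _ _).trans subset_hull)
      (hull_subset ma (Set.insert_subset haA h0a))).resolve_left fun h => ha0 ?_
    rw [← h]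
    exact subset_hull (Set.mem_insert _ _)
  have hullC : hull (insert c K0) = Kc := by
    refine (hC _ (meets_hull hi) ((Set.subset_insert _ _).trans subset_hull)
      (hull_subset mc (Set.insert_subset hcC h0c))).resolve_left fun h => hc0 ?_
    rw [← h]
    exact subset_hull (Set.mem_insert _ _)
  have hkN : k ∈ hull (insert a (insert c K0)) := by
    refine hjoin _ (meets_hull hi) ?_ ?_ k
    · rw [← hullA]
      exact hull_mono (Set.insert_subset_insert (Set.subset_insert _ _))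
    · rw [← hullC]
      exact hull_mono (Set.subset_insert _ _)
  obtain ⟨G, hG, hGk, hGu⟩ := exists_graph hkN
  have hG1 : ∀ {A : Set N} {f g : (ℕ → N) → N}, insert c K0 ⊆ A → Tn Language.ring A f →
      Tn Language.ring A g → Dn Language.ring A fun v => G (f v) (g v) := by
    intro A f g hA hf hg
    refine (Dn.subst (hG.mono hA) (σ := fun i v => if i = 0 then f v else g v) fun i => ?_).congr
      fun v => by simp
    by_cases h : i = 0
    · simp only [h, if_true]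
      exact hf
    · simp only [h, if_false]
      exact hg
  obtain ⟨m1, hm1, ham⟩ := hcof (hab haA)
  obtain ⟨m2, hm2, hkm⟩ := hcof hkB
  -- the bound
  obtain ⟨b, hb⟩ : ∃ b, b = pr m1 m2 + 1 := ⟨_, rfl⟩
  have hb0 : b ∈ K0 := mem_of_unique m0 (P := fun x => x = pr m1 m2 + 1)
    (Dn.eq (Tn.var 0) (((Tn.const hm1).pr (Tn.const hm2)).add Tn.one)) hb fun x hx => by
      rw [hx, hb]
  obtain ⟨d, hd0, hd⟩ := meets_iff.1 m0 (fun d => Mlt b d) (dn_mlt (Tn.const hb0) (Tn.var 0))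
    (exists_mlt hi b)
  obtain ⟨B, hB0, hB⟩ := meets_iff.1 m0 (fun B => Bd b d B)
    (dn_bd (Tn.const hb0) (Tn.const hd0) (Tn.var 0)) (exists_bd hi hd)
  -- the coded set
  obtain ⟨P, hP⟩ : ∃ P : N → Prop, P = fun p => ∃ u, u ≤ m1 ∧ ∃ x, x ≤ m2 ∧ p = pr u x ∧ G u x :=
    ⟨_, rfl⟩
  have hPd : ∀ {A : Set N} {f : (ℕ → N) → N}, insert c K0 ⊆ A → Tn Language.ring A f →
      Dn Language.ring A fun v => P (f v) := by
    intro A f hA hf
    have h1 : m1 ∈ A := hA (Set.mem_insert_of_mem _ hm1)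
    have h2 : m2 ∈ A := hA (Set.mem_insert_of_mem _ hm2)
    rw [hP]
    exact Dn.ex (R := fun u v => u ≤ m1 ∧ ∃ x, x ≤ m2 ∧ f v = pr u x ∧ G u x)
      ((Dn.le (Tn.var 0) (Tn.const h1)).and
        (Dn.ex (R := fun x v => x ≤ m2 ∧ f (fun i => v (i + 1)) = pr (v 0) x ∧ G (v 0) x)
          ((Dn.le (Tn.var 0) (Tn.const h2)).and ((Dn.eq hf.tail.tail
            ((Tn.var 1).pr (Tn.var 0))).and (hG1 hA (Tn.var 1) (Tn.var 0))))))
  obtain ⟨s, hsC, hsB, hs⟩ := meets_iff.1 mc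
    (fun s => s ≤ B ∧ ∀ x, x < b → (md d x ∣ s ↔ P x)) (by
      have hcK : insert c K0 ⊆ Kc := Set.insert_subset hcC h0c
      refine (Dn.le (Tn.var 0) (Tn.const (h0c hB0))).and
        (Dn.all (R := fun x v => x < b → (md d x ∣ v 0 ↔ P x))
          ((Dn.lt (Tn.var 0) (Tn.const (h0c hb0))).imp (Dn.iff ?_ (hPd hcK (Tn.var 0)))))
      exact Dn.dvd (Tn.md (Tn.const (h0c hd0)) (Tn.var 0)) (Tn.var 1))
    (exists_code_le hi hd hB (hPd (Set.subset_univ _) (Tn.var 0)))
  have hs0 : s ∈ K0 := hmeet ⟨hinit B (hab (h0a hB0)) s hsB, hsC⟩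
  refine hkA (mem_of_unique ma (P := fun x => x ≤ m2 ∧ md d (pr a x) ∣ s) ?_ ?_ ?_)
  · exact (Dn.le (Tn.var 0) (Tn.const (h0a hm2))).and
      (Dn.dvd (Tn.md (Tn.const (h0a hd0)) ((Tn.const haA).pr (Tn.var 0))) (Tn.const (h0a hs0)))
  · refine ⟨hkm, (hs _ ?_).2 ?_⟩
    · rw [hb, lt_succ hi]
      exact pr_mono ham hkm
    · rw [hP]
      exact ⟨a, ham, k, hkm, rfl, hGk⟩
  · rintro x ⟨hx1, hx2⟩
    have h1 := (hs _ (by
      rw [hb, lt_succ hi]
      exact pr_mono ham hx1)).1 hx2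
    rw [hP] at h1
    obtain ⟨u, -, x', -, h2, h3⟩ := h1
    obtain ⟨rfl, rfl⟩ := pr_inj hi h2
    exact hGu _ _ _ h3 hGk

end Pool.Agent.U98.PAL
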