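import Pool.Agent.U98.PAL.Arith

/-!
# Transfer between elementarily equivalent structures
-/

set_option autoImplicit false

namespace Pool.Agent.U98.PAL

open FirstOrder FirstOrder.Language FirstOrder.Ring Set

universe w w' x

theorem realize_of_equiv {L : FirstOrder.Language.{0, 0}} {M : Type w} {N : Type w'}
    [L.Structure M] [L.Structure N] [Nonempty M] {γ : Type x}
    (h : ∀ σ : L.Sentence, σ.Realize M ↔ σ.Realize N) (φ : L.Formula γ)
    (hM : ∀ v : γ → M, φ.Realize v) (v : γ → N) : φ.Realize v := by
  classical
  by_contra hv
  have h1 : (Formula.exClosure (∼φ)).Realize N := by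
    refine (Formula.realize_exClosure _).2 ⟨fun a => v a, ?_⟩
    refine (BoundedFormula.realize_restrictFreeVar (φ := ∼φ) (f := id) v fun _ => rfl).2 ?_
    exact hv
  obtain ⟨w, hw⟩ := (Formula.realize_exClosure _).1 ((h _).2 h1)
  let w' : γ → M := fun a => if ha : a ∈ (∼φ).freeVarFinset then w ⟨a, ha⟩
    else Classical.arbitrary M
  have h2 := (BoundedFormula.realize_restrictFreeVar (φ := ∼φ) (f := id) (v := w) w' fun a => by
    show w a = dite _ _ _
    rw [dif_pos a.2]).1 hw
  exact h2 (hM w')

section

variable {M : Type w} [CommSemiring M] [Neg M] [CompatibleRing M]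
  {N : Type w'} [CommSemiring N] [Neg N] [CompatibleRing N]

/-- The instance of induction for the formula `φ`, where the last variable is the variable of the
induction. -/
noncomputable def indF {γ : Type x} (φ : Language.ring.Formula (γ ⊕ Fin 1)) :
    Language.ring.Formula γ :=
  (BoundedFormula.subst φ (Sum.elim (fun g => Term.var g) fun _ => 0)).imp
    (((φ.imp (BoundedFormula.subst φ (Sum.elim (fun g => Term.var (Sum.inl g))
      fun _ => Term.var (Sum.inr 0) + 1)) : Language.ring.Formula (γ ⊕ Fin 1)).iAlls (Fin 1)).imp
        (φ.iAlls (Fin 1)))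

theorem realize_indF {γ : Type x} (φ : Language.ring.Formula (γ ⊕ Fin 1)) (v : γ → M) :
    (indF φ).Realize v ↔ (φ.Realize (Sum.elim v fun _ => 0) →
      (∀ x : M, φ.Realize (Sum.elim v fun _ => x) → φ.Realize (Sum.elim v fun _ => x + 1)) →
      ∀ x : M, φ.Realize (Sum.elim v fun _ => x)) := by
  have h0 : Formula.Realize (BoundedFormula.subst φ (Sum.elim (fun g => Term.var g) fun _ => 0)) v ↔
      φ.Realize (Sum.elim v fun _ => (0 : M)) := by
    rw [Formula.Realize, BoundedFormula.realize_subst, Formula.Realize]
    refine iff_of_eq (congrArg (fun u => BoundedFormula.Realize φ u default) ?_)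
    funext z
    rcases z with g | i
    · rfl
    · exact realize_zero v
  have h1 : ∀ u : Fin 1 → M, Formula.Realize (BoundedFormula.subst φ
      (Sum.elim (fun g => Term.var (Sum.inl g)) fun _ => Term.var (Sum.inr 0) + 1))
      (Sum.elim v u) ↔ φ.Realize (Sum.elim v fun _ => u 0 + 1) := by
    intro u
    rw [Formula.Realize, BoundedFormula.realize_subst, Formula.Realize]
    refine iff_of_eq (congrArg (fun u => BoundedFormula.Realize φ u default) ?_)
    funext z
    rcases z with g | i
    · rfl
    · show Term.realize _ (Term.var (Sum.inr 0) + 1) = u 0 + 1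
      rw [realize_add, realize_one]
      rfl
  have hu : ∀ u : Fin 1 → M, u = fun _ => u 0 := fun u => by
    funext i
    rw [Subsingleton.elim i 0]
  rw [indF, Formula.realize_imp, Formula.realize_imp, h0, Formula.realize_iAlls,
    Formula.realize_iAlls]
  refine imp_congr_right fun _ => imp_congr ?_ ?_
  · constructor
    · intro H x hx
      have := H fun _ => x
      rw [Formula.realize_imp, h1] at this
      exact this hx
    · intro H u
      rw [Formula.realize_imp, h1, hu u]
      exact H (u 0)
  · constructor
    · intro H x
      exact H fun _ => x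
    · intro H u
      rw [hu u]
      exact H (u 0)

theorem PA.transfer (h : ∀ σ : Language.ring.Sentence, σ.Realize M ↔ σ.Realize N) (hM : PA M) :
    PA N := by
  have : Nonempty M := ⟨0⟩
  refine ⟨fun x hx => ?_, fun x y hxy => ?_, fun P hP h0 hs x => ?_⟩
  · have h1 := realize_of_equiv h (γ := Fin 1)
      (∼(Term.equal (Term.var 0 + 1) (0 : Language.ring.Term (Fin 1)))) (fun v => by
        rw [Formula.realize_not, Formula.realize_equal]
        simp only [realize_add, realize_one, realize_zero, Term.realize_var]
        exact hM.succ_ne _) fun _ => x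
    rw [Formula.realize_not, Formula.realize_equal] at h1
    simp only [realize_add, realize_one, realize_zero, Term.realize_var] at h1
    exact h1 hx
  · have h1 := realize_of_equiv h (γ := Fin 2)
      ((Term.equal (Term.var 0 + 1) (Term.var 1 + 1 : Language.ring.Term (Fin 2))).imp
        (Term.equal (Term.var 0) (Term.var 1))) (fun v => by
        rw [Formula.realize_imp, Formula.realize_equal, Formula.realize_equal]
        simp only [realize_add, realize_one, Term.realize_var]
        exact hM.succ_inj _ _) ![x, y]
    rw [Formula.realize_imp, Formula.realize_equal, Formula.realize_equal] at h1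
    simp only [realize_add, realize_one, Term.realize_var] at h1
    exact h1 hxy
  · obtain ⟨φ, hφ⟩ := definable_iff_exists_formula_sum.1 (Dn.iff_definable₁.1 hP)
    have h1 : ∀ x : N, P x ↔ φ.Realize (Sum.elim (↑) fun _ => x) := fun x =>
      iff_of_eq (congrArg ((fun _ => x) ∈ ·) hφ)
    have h2 := realize_of_equiv h (indF φ) (fun v => by
      rw [realize_indF]
      refine hM.ind (fun x => φ.Realize (Sum.elim v fun _ => x)) ?_
      refine (Dn.iff_definable₁ (P := fun x => φ.Realize (Sum.elim v fun _ => x))).2
        (definable_iff_exists_formula_sum.2 ⟨φ.relabel (Sum.map (fun p => ⟨v p, Set.mem_univ _⟩) id), ?_⟩)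
      ext u
      show φ.Realize (Sum.elim v fun _ => u 0) ↔ (φ.relabel _).Realize _
      rw [Formula.realize_relabel]
      refine iff_of_eq (congrArg _ ?_)
      funext z
      rcases z with g | i
      · rfl
      · show u 0 = u i
        rw [Subsingleton.elim i 0]) (↑)
    rw [realize_indF] at h2
    simp only [← h1] at h2
    exact h2 h0 hs x

end

end Pool.Agent.U98.PAL
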